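import Pool.Agent.DW.Chord

/-!
# The equations for the join of an `l`-cycle and an `m`-cycle (package E2 of helper4)
-/

namespace Pool.Agent.H19S1.E2

open Real Set

/-- the squared length of the edges of the first cycle -/
noncomputable def S (z : ℝ × ℝ) : ℝ := 4 * z.2 ^ 2 / (1 + z.1 ^ 2 + z.2 ^ 2)

/-- the squared length of the edges of the second cycle -/
noncomputable def U (z : ℝ × ℝ) : ℝ := 4 * z.1 ^ 2 / (1 + z.1 ^ 2 + z.2 ^ 2)

/-- the angle at the mixed edges -/
noncomputable def B (z : ℝ × ℝ) : ℝ :=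
  arccos (z.1 * z.2 / √((1 + z.1 ^ 2) * (1 + z.2 ^ 2)))

/-- the angle at the cycle edges -/
noncomputable def A (p : ℝ) : ℝ := arccos ((1 - p ^ 2) / (1 + p ^ 2))

theorem A_zero : A 0 = 0 := by
  unfold A
  norm_num

theorem A_two : 2 * π / 3 < A 2 := by
  unfold A
  have h1 : arccos (-(1 / 2)) = 2 * π / 3 := by
    rw [arccos_neg, ← cos_pi_div_three, arccos_cos (by positivity) (by linarith [pi_pos])]
    ring
  rw [← h1]
  apply arccos_lt_arccos <;> norm_num

theorem B_le {z : ℝ × ℝ} (h1 : 0 ≤ z.1) (h2 : 0 ≤ z.2) : 0 ≤ 1 - 4 * B z / (2 * π) := by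
  have h : B z ≤ π / 2 := by
    unfold B
    rw [arccos_le_pi_div_two]
    positivity
  have hp := pi_pos
  rw [sub_nonneg, div_le_one (by positivity)]
  linarith

theorem B_eq_left {z : ℝ × ℝ} (h : z.1 = 0) : 1 - 4 * B z / (2 * π) = 0 := by
  have hB : B z = π / 2 := by
    unfold B
    rw [h]
    simp
  have hp := pi_pos
  rw [hB]
  field_simp
  norm_num

theorem B_eq_right {z : ℝ × ℝ} (h : z.2 = 0) : 1 - 4 * B z / (2 * π) = 0 := by
  have hB : B z = π / 2 := by
    unfold B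
    rw [h]
    simp
  have hp := pi_pos
  rw [hB]
  field_simp
  norm_num

theorem neg_two {m : ℕ} (hm : 3 ≤ m) : 1 - m * A 2 / (2 * π) < 0 := by
  have hA := A_two
  have hp := pi_pos
  have hm' : (3 : ℝ) ≤ m := by exact_mod_cast hm
  rw [sub_neg, one_lt_div (by positivity)]
  nlinarith

theorem zero {l m : ℕ} (hl : 3 ≤ l) (hm : 3 ≤ m) : ∃ z : ℝ × ℝ, 0 < z.1 ∧ 0 < z.2 ∧
    1 - m * A z.1 / (2 * π) = S z * √(S z) * (1 - 4 * B z / (2 * π)) ∧
    1 - l * A z.2 / (2 * π) = U z * √(U z) * (1 - 4 * B z / (2 * π)) := by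
  have hp := pi_pos
  obtain ⟨z, hz, e1, e2⟩ := Pool.Agent.DW.pm2_strict (a := 0) (b := 2) (c := 0) (d := 2)
    (f := fun z => S z * √(S z) * (1 - 4 * B z / (2 * π)) - (1 - m * A z.1 / (2 * π)))
    (g := fun z => U z * √(U z) * (1 - 4 * B z / (2 * π)) - (1 - l * A z.2 / (2 * π)))
    (by norm_num) (by norm_num)
    (by
      apply Continuous.continuousOn
      unfold S B A
      have h1 : ∀ z : ℝ × ℝ, 1 + z.1 ^ 2 + z.2 ^ 2 ≠ 0 := fun z => by positivity
      have h2 : ∀ z : ℝ × ℝ, √((1 + z.1 ^ 2) * (1 + z.2 ^ 2)) ≠ 0 := fun z => by positivity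
      have h3 : ∀ z : ℝ × ℝ, 1 + z.1 ^ 2 ≠ 0 := fun z => by positivity
      fun_prop (disch := assumption))
    (by
      apply Continuous.continuousOn
      unfold U B A
      have h1 : ∀ z : ℝ × ℝ, 1 + z.1 ^ 2 + z.2 ^ 2 ≠ 0 := fun z => by positivity
      have h2 : ∀ z : ℝ × ℝ, √((1 + z.1 ^ 2) * (1 + z.2 ^ 2)) ≠ 0 := fun z => by positivity
      have h3 : ∀ z : ℝ × ℝ, 1 + z.2 ^ 2 ≠ 0 := fun z => by positivity
      fun_prop (disch := assumption))
    (by
      intro y _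
      simp only
      rw [B_eq_left rfl, A_zero]
      norm_num)
    (by
      intro y hy
      have h1 := B_le (z := (2, y)) (by norm_num) hy.1
      have h2 := neg_two hm
      have h3 : 0 ≤ S (2, y) * √(S (2, y)) := by
        unfold S
        positivity
      have := mul_nonneg h3 h1
      simp only
      linarith)
    (by
      intro x _
      simp only
      rw [B_eq_right rfl, A_zero]
      norm_num)
    (by
      intro x hx
      have h1 := B_le (z := (x, 2)) hx.1 (by norm_num)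
      have h2 := neg_two hl
      have h3 : 0 ≤ U (x, 2) * √(U (x, 2)) := by
        unfold U
        positivity
      have := mul_nonneg h3 h1
      simp only
      linarith)
  obtain ⟨⟨z1, -⟩, ⟨z2, -⟩⟩ := hz
  refine ⟨z, ?_, ?_, by linarith [e1], by linarith [e2]⟩
  · rcases z1.eq_or_lt with h | h
    · exfalso
      have e1' : S z * √(S z) * (1 - 4 * B z / (2 * π)) - (1 - m * A z.1 / (2 * π)) = 0 := e1
      rw [B_eq_left h.symm, ← h, A_zero] at e1'
      norm_num at e1'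
    · exact h
  · rcases z2.eq_or_lt with h | h
    · exfalso
      have e2' : U z * √(U z) * (1 - 4 * B z / (2 * π)) - (1 - l * A z.2 / (2 * π)) = 0 := e2
      rw [B_eq_right h.symm, ← h, A_zero] at e2'
      norm_num at e2'
    · exact h

/-- Package E2. -/
theorem equations {l m : ℕ} (hl : 3 ≤ l) (hm : 3 ≤ m) : ∃ s u c : ℝ, 0 < s ∧ 0 < u ∧ s + u < 4 ∧
    (1 - m * arccos ((4 - s - 2 * u) / (4 - s)) / (2 * π)) / (2 * √s) = c * s ∧
    (1 - l * arccos ((4 - u - 2 * s) / (4 - u)) / (2 * π)) / (2 * √u) = c * u ∧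
    (1 - 4 * arccos (√(s * u) / √((4 - s) * (4 - u))) / (2 * π)) / 2 = c := by
  obtain ⟨⟨p, q⟩, hp, hq, e1, e2⟩ := zero hl hm
  simp only at hp hq e1 e2
  have hD : 0 < 1 + p ^ 2 + q ^ 2 := by positivity
  have hs : 0 < S (p, q) := by
    unfold S
    positivity
  have hu : 0 < U (p, q) := by
    unfold U
    positivity
  have h4s : 4 - S (p, q) = 4 * (1 + p ^ 2) / (1 + p ^ 2 + q ^ 2) := by
    unfold S
    field_simp
    ring
  have h4u : 4 - U (p, q) = 4 * (1 + q ^ 2) / (1 + p ^ 2 + q ^ 2) := by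
    unfold U
    field_simp
    ring
  have c1 : (4 - S (p, q) - 2 * U (p, q)) / (4 - S (p, q)) = (1 - p ^ 2) / (1 + p ^ 2) := by
    rw [h4s]
    unfold U
    field_simp
    ring
  have c2 : (4 - U (p, q) - 2 * S (p, q)) / (4 - U (p, q)) = (1 - q ^ 2) / (1 + q ^ 2) := by
    rw [h4u]
    unfold S
    field_simp
    ring
  have c3 : √(S (p, q) * U (p, q)) / √((4 - S (p, q)) * (4 - U (p, q))) =
      p * q / √((1 + p ^ 2) * (1 + q ^ 2)) := by
    have a1 : S (p, q) * U (p, q) = (4 * (p * q) / (1 + p ^ 2 + q ^ 2)) ^ 2 := by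
      unfold S U
      field_simp
    have a2 : (4 - S (p, q)) * (4 - U (p, q)) =
        (4 / (1 + p ^ 2 + q ^ 2)) ^ 2 * ((1 + p ^ 2) * (1 + q ^ 2)) := by
      rw [h4s, h4u]
      field_simp
    rw [a1, a2, sqrt_sq (by positivity), sqrt_mul (by positivity), sqrt_sq (by positivity)]
    have : 0 < √((1 + p ^ 2) * (1 + q ^ 2)) := by positivity
    field_simp
  refine ⟨S (p, q), U (p, q), (1 - 4 * B (p, q) / (2 * π)) / 2, hs, hu, ?_, ?_, ?_, ?_⟩
  · unfold S U
    rw [← add_div, div_lt_iff₀ hD]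
    nlinarith
  · rw [c1]
    have : (1 - m * arccos ((1 - p ^ 2) / (1 + p ^ 2)) / (2 * π)) =
        S (p, q) * √(S (p, q)) * (1 - 4 * B (p, q) / (2 * π)) := e1
    rw [this]
    have := sqrt_pos.2 hs
    field_simp
  · rw [c2]
    have : (1 - l * arccos ((1 - q ^ 2) / (1 + q ^ 2)) / (2 * π)) =
        U (p, q) * √(U (p, q)) * (1 - 4 * B (p, q) / (2 * π)) := e2
    rw [this]
    have := sqrt_pos.2 hu
    field_simp
  · rw [c3]
    rfl

end Pool.Agent.H19S1.E2
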