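import Pool.Agent.H88ES.Join

/-!
# The midpoint subdivision of a union of cycles (package S1 of helper88)
-/

namespace Pool.Agent.H19S1

open Pool.Agent.H4ES Pool.Agent.H88ES

variable {C : Type} [Fintype C] [DecidableEq C]

/-- the affine map -/
noncomputable def phi (σ : Equiv.Perm C) (u : C × Bool → ℝ) (c : C) : ℝ := ∑ p, u p * mid σ p c

/-- its inverse -/
noncomputable def psi (σ : Equiv.Perm C) (x : C → ℝ) (p : C × Bool) : ℝ :=
  if p.2 then 2 * min (x p.1) (x (σ p.1))
  else x p.1 - min (x p.1) (x (σ p.1)) - min (x (σ.symm p.1)) (x p.1)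

/-- the cone over the graph of `σ` -/
def X (σ : Equiv.Perm C) : Set (C → ℝ) :=
  {x | (∀ v, 0 ≤ x v) ∧ ∃ c, ∀ v, x v ≠ 0 → v = c ∨ v = σ c}

theorem phi_eq (σ : Equiv.Perm C) (u : C × Bool → ℝ) (c : C) :
    phi σ u c = u (c, false) + (u (c, true) + u (σ.symm c, true)) / 2 := by
  unfold phi
  rw [Fintype.sum_prod_type]
  simp only [Fintype.univ_bool, mid, Finset.sum_insert, Finset.mem_singleton, Bool.true_eq_false,
    not_false_eq_true, Finset.sum_singleton, if_true, Bool.false_eq_true, if_false]
  rw [Finset.sum_add_distrib]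
  have h1 : ∑ x : C, u (x, false) * (if c = x then (1 : ℝ) else 0) = u (c, false) := by
    simp
  have h2 : ∑ x : C, u (x, true) * (((if c = x then (1 : ℝ) else 0) +
      (if c = σ x then (1 : ℝ) else 0)) / 2) = (u (c, true) + u (σ.symm c, true)) / 2 := by
    have h3 : ∀ x : C, u (x, true) * (((if c = x then (1 : ℝ) else 0) +
        (if c = σ x then (1 : ℝ) else 0)) / 2) =
        (if c = x then u (x, true) / 2 else 0) + (if σ.symm c = x then u (x, true) / 2 else 0) := by
      intro x
      have : (c = σ x) ↔ σ.symm c = x := by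
        rw [Equiv.symm_apply_eq]
      simp only [this]
      split_ifs <;> ring
    rw [Finset.sum_congr rfl (fun x _ => h3 x), Finset.sum_add_distrib]
    simp
    ring
  rw [h1, h2]
  ring

theorem sum_phi (σ : Equiv.Perm C) (u : C × Bool → ℝ) : ∑ c, phi σ u c = ∑ p, u p := by
  have h : ∑ c, u (σ.symm c, true) = ∑ c, u (c, true) :=
    Equiv.sum_comp σ.symm (fun c => u (c, true))
  rw [Fintype.sum_prod_type]
  simp only [phi_eq, Fintype.univ_bool, Finset.sum_insert, Finset.mem_singleton,
    Bool.true_eq_false, not_false_eq_true, Finset.sum_singleton]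
  rw [Finset.sum_add_distrib, ← Finset.sum_div, Finset.sum_add_distrib, h,
    Finset.sum_add_distrib]
  ring

theorem phi_psi (σ : Equiv.Perm C) (x : C → ℝ) : phi σ (psi σ x) = x := by
  funext c
  rw [phi_eq]
  simp only [psi, if_true, Bool.false_eq_true, if_false, Equiv.apply_symm_apply]
  ring

theorem mem_X' {σ : Equiv.Perm C} {u : C × Bool → ℝ} (hu : u ∈ X (sub σ)) :
    (∀ p, 0 ≤ u p) ∧ ∃ c, (∀ v, v ≠ c → u (v, true) = 0) ∧
      (∀ v, v ≠ c → v ≠ σ c → u (v, false) = 0) ∧ (u (c, false) = 0 ∨ u (σ c, false) = 0 ∨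
        σ c = c) := by
  obtain ⟨h0, ⟨⟨c, b⟩, hc⟩⟩ := hu
  refine ⟨h0, c, ?_⟩
  have hc' : ∀ v, v ≠ (c, b) → v ≠ sub σ (c, b) → u v = 0 := by
    intro v h1 h2
    by_contra h3
    rcases hc v h3 with h | h
    · exact h1 h
    · exact h2 h
  cases b
  · refine ⟨fun v hv => hc' _ (by simp) (by simpa [sub] using hv),
      fun v hv _ => hc' _ (by simpa using hv) (by simp [sub]), ?_⟩
    by_cases h : σ c = c
    · exact Or.inr (Or.inr h)
    · exact Or.inr (Or.inl (hc' _ (by simpa using h) (by simp [sub])))
  · refine ⟨fun v hv => hc' _ (by simpa using hv) (by simp [sub]),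
      fun v _ hv => hc' _ (by simp) (by simpa [sub] using hv), ?_⟩
    by_cases h : σ c = c
    · exact Or.inr (Or.inr h)
    · refine Or.inl (hc' _ (by simp) ?_)
      intro h'
      have h'' : c = σ c := by
        have := congrArg Prod.fst h'
        simpa [sub] using this
      exact h h''.symm

/-- the values of `phi u` on the cell of `u` -/
theorem phi_val {σ : Equiv.Perm C} (h : Cyc σ) {u : C × Bool → ℝ} {c : C}
    (h1 : ∀ v, v ≠ c → u (v, true) = 0) (h2 : ∀ v, v ≠ c → v ≠ σ c → u (v, false) = 0) :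
    phi σ u c = u (c, false) + u (c, true) / 2 ∧
    phi σ u (σ c) = u (σ c, false) + u (c, true) / 2 ∧
    ∀ v, v ≠ c → v ≠ σ c → phi σ u v = 0 := by
  refine ⟨?_, ?_, ?_⟩
  · rw [phi_eq, h1 (σ.symm c) (by
      intro h'
      rw [Equiv.symm_apply_eq] at h'
      exact h.one c h'.symm)]
    ring
  · rw [phi_eq, h1 (σ c) (h.one c), Equiv.symm_apply_apply]
    ring
  · intro v v1 v2
    rw [phi_eq, h2 v v1 v2, h1 v v1, h1 (σ.symm v) (by
      intro h'
      rw [Equiv.symm_apply_eq] at h'
      exact v2 h')]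
    ring

theorem mapsTo_phi {σ : Equiv.Perm C} (h : Cyc σ) : Set.MapsTo (phi σ) (X (sub σ)) (X σ) := by
  intro u hu
  obtain ⟨h0, c, h1, h2, h3⟩ := mem_X' hu
  obtain ⟨p1, p2, p3⟩ := phi_val h h1 h2
  refine ⟨fun v => ?_, c, fun v hv => ?_⟩
  · rw [phi_eq]
    have := h0 (v, false)
    have := h0 (v, true)
    have := h0 (σ.symm v, true)
    positivity
  · by_contra hn
    rw [not_or] at hn
    exact hv (p3 v hn.1 hn.2)

theorem psi_phi {σ : Equiv.Perm C} (h : Cyc σ) {u : C × Bool → ℝ} (hu : u ∈ X (sub σ)) :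
    psi σ (phi σ u) = u := by
  have hx := (mapsTo_phi h hu).1
  obtain ⟨h0, c, h1, h2, h3⟩ := mem_X' hu
  obtain ⟨p1, p2, p3⟩ := phi_val h h1 h2
  have b0 := h0 (c, true)
  have a0 := h0 (c, false)
  have c0 := h0 (σ c, false)
  have hmin : min (phi σ u c) (phi σ u (σ c)) = u (c, true) / 2 := by
    rw [p1, p2]
    rcases h3 with h3 | h3 | h3
    · rw [h3, min_eq_left (by linarith)]
      ring
    · rw [h3, min_eq_right (by linarith)]
      ring
    · exact absurd h3 (h.one c)
  have hs : phi σ u (σ (σ c)) = 0 := p3 _ (h.two c) (h.one (σ c))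
  have hp : phi σ u (σ.symm c) = 0 := by
    refine p3 _ ?_ ?_
    · intro h'
      rw [Equiv.symm_apply_eq] at h'
      exact h.one c h'.symm
    · intro h'
      rw [Equiv.symm_apply_eq] at h'
      exact h.two c h'.symm
  funext ⟨v, b⟩
  cases b
  · simp only [psi, Bool.false_eq_true, if_false]
    by_cases v1 : v = c
    · subst v1
      rw [hmin, hp, min_eq_left (hx v), p1]
      ring
    · by_cases v2 : v = σ c
      · subst v2
        rw [Equiv.symm_apply_apply, hmin, hs, min_eq_right (hx _), p2]
        ring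
      · rw [p3 v v1 v2, min_eq_left (hx _), min_eq_right (hx _), h2 v v1 v2]
        ring
  · simp only [psi, if_true]
    by_cases v1 : v = c
    · subst v1
      rw [hmin]
      ring
    · rw [h1 v v1]
      by_cases v2 : v = σ c
      · subst v2
        rw [hs, min_eq_right (hx _)]
        ring
      · rw [p3 v v1 v2, min_eq_left (hx _)]
        ring

theorem mapsTo_psi {σ : Equiv.Perm C} (h : Cyc σ) : Set.MapsTo (psi σ) (X σ) (X (sub σ)) := by
  rintro x ⟨x0, c, hc⟩
  have hc' : ∀ v, v ≠ c → v ≠ σ c → x v = 0 := by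
    intro v v1 v2
    by_contra h3
    rcases hc v h3 with h | h
    · exact v1 h
    · exact v2 h
  have hs : x (σ (σ c)) = 0 := hc' _ (h.two c) (h.one (σ c))
  have hp : x (σ.symm c) = 0 := by
    refine hc' _ ?_ ?_
    · intro h'
      rw [Equiv.symm_apply_eq] at h'
      exact h.one c h'.symm
    · intro h'
      rw [Equiv.symm_apply_eq] at h'
      exact h.two c h'.symm
  have e1 : psi σ x (c, false) = x c - min (x c) (x (σ c)) := by
    simp only [psi, Bool.false_eq_true, if_false]
    rw [hp, min_eq_left (x0 c)]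
    ring
  have e2 : psi σ x (σ c, false) = x (σ c) - min (x c) (x (σ c)) := by
    simp only [psi, Bool.false_eq_true, if_false]
    rw [hs, min_eq_right (x0 _), Equiv.symm_apply_apply]
    ring
  have e3 : ∀ v, v ≠ c → v ≠ σ c → psi σ x (v, false) = 0 := by
    intro v v1 v2
    simp only [psi, Bool.false_eq_true, if_false]
    rw [hc' v v1 v2, min_eq_left (x0 _), min_eq_right (x0 _)]
    ring
  have e4 : ∀ v, v ≠ c → psi σ x (v, true) = 0 := by
    intro v v1
    simp only [psi, if_true]
    by_cases v2 : v = σ c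
    · subst v2
      rw [hs, min_eq_right (x0 _)]
      ring
    · rw [hc' v v1 v2, min_eq_left (x0 _)]
      ring
  have e5 : psi σ x (c, true) = 2 * min (x c) (x (σ c)) := by
    simp only [psi, if_true]
  refine ⟨?_, ?_⟩
  · rintro ⟨v, b⟩
    cases b
    · by_cases v1 : v = c
      · rw [v1, e1]
        linarith [min_le_left (x c) (x (σ c))]
      · by_cases v2 : v = σ c
        · rw [v2, e2]
          linarith [min_le_right (x c) (x (σ c))]
        · rw [e3 v v1 v2]
    · by_cases v1 : v = c
      · rw [v1, e5]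
        have := le_min (x0 c) (x0 (σ c))
        linarith
      · rw [e4 v v1]
  · rcases le_total (x c) (x (σ c)) with hle | hle
    · refine ⟨(c, true), ?_⟩
      rintro ⟨v, b⟩ hv
      cases b
      · right
        by_cases v2 : v = σ c
        · simp [sub, v2]
        · exfalso
          apply hv
          by_cases v1 : v = c
          · rw [v1, e1, min_eq_left hle, sub_self]
          · exact e3 v v1 v2
      · left
        by_cases v1 : v = c
        · rw [v1]
        · exact absurd (e4 v v1) hv
    · refine ⟨(c, false), ?_⟩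
      rintro ⟨v, b⟩ hv
      cases b
      · left
        by_cases v1 : v = c
        · rw [v1]
        · exfalso
          apply hv
          by_cases v2 : v = σ c
          · rw [v2, e2, min_eq_right hle, sub_self]
          · exact e3 v v1 v2
      · right
        by_cases v1 : v = c
        · simp [sub, v1]
        · exact absurd (e4 v v1) hv

end Pool.Agent.H19S1
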